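import Pool.Agent.W2helper45.UC.Stm

/-!
# Project UC, piece CNT: counting the exponents of Feichtner and Yuzvinsky
-/

set_option autoImplicit false

namespace Pool.Agent.W2helper45.UC.Cn

open Pool.Agent.W2helper45.UC
open Pool.Agent.X153.CH (flats rk chains chowSeries mem_chains)

variable {n : ℕ}

/-- the possible exponents of the member `F` of the chain `C` -/
def tt (r : ℕ) (C : Finset (Finset (Fin n))) (F : Finset (Fin n)) : Finset ℕ :=
  Finset.Ico 1 (rk r F - (C.filter (fun G => G ⊂ F)).sup (rk r))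

theorem mem_fin {r : ℕ} {C : Finset (Finset (Fin n))} {m : Ex n} :
    m ∈ C.finsupp (tt r C) ↔ m.support = C ∧ ∀ F ∈ C, m F + pr (rk r) m F < rk r F := by
  rw [Finset.mem_finsupp_iff]
  constructor
  · rintro ⟨h1, h2⟩
    have h3 : m.support = C := by
      refine Finset.Subset.antisymm h1 fun F hF => ?_
      have := h2 F hF
      rw [tt, Finset.mem_Ico] at this
      rw [Finsupp.mem_support_iff]
      omega
    refine ⟨h3, fun F hF => ?_⟩
    have := h2 F hF
    rw [tt, Finset.mem_Ico] at this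
    rw [pr, h3]
    omega
  · rintro ⟨h1, h2⟩
    refine ⟨h1.le, fun F hF => ?_⟩
    have h3 := h2 F hF
    rw [pr, h1] at h3
    have h4 : m F ≠ 0 := by
      rw [← Finsupp.mem_support_iff, h1]
      exact hF
    rw [tt, Finset.mem_Ico]
    omega

theorem fy_iff {r : ℕ} {m : Ex n} : FY r m ↔
    ∃ C ∈ chains ((flats n r).erase ∅), m ∈ C.finsupp (tt r C) := by
  have hfl : ∀ F : Finset (Fin n), IsFl r F ↔ F ∈ (flats n r).erase ∅ := by
    intro F
    rw [IsFl, Finset.mem_erase, flats, Finset.mem_filter, Finset.nonempty_iff_ne_empty]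
    simp
  constructor
  · rintro ⟨⟨h1, h2⟩, h3⟩
    refine ⟨m.support, mem_chains.2 ⟨fun F hF => (hfl F).1 (h1 F hF), h2⟩, mem_fin.2 ⟨rfl, h3⟩⟩
  · rintro ⟨C, hC, hm⟩
    obtain ⟨h1, h2⟩ := mem_chains.1 hC
    obtain ⟨h3, h4⟩ := mem_fin.1 hm
    subst h3
    exact ⟨⟨fun F hF => (hfl F).2 (h1 hF), h2⟩, h4⟩

theorem coeff_prod (r k : ℕ) (C : Finset (Finset (Fin n))) :
    (∏ F ∈ C, ∑ a ∈ Finset.Ico 1 (rk r F - (C.filter (fun G => G ⊂ F)).sup (rk r)),
      (Polynomial.X : Polynomial ℤ) ^ a).coeff k =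
      (((C.finsupp (tt r C)).filter fun m => m.degree = k).card : ℤ) := by
  have h1 : ∏ F ∈ C, ∑ a ∈ Finset.Ico 1 (rk r F - (C.filter (fun G => G ⊂ F)).sup (rk r)),
      (Polynomial.X : Polynomial ℤ) ^ a =
      ∑ f ∈ C.finsupp (tt r C), (Polynomial.X : Polynomial ℤ) ^ f.degree := by
    have h2 : ∏ F ∈ C, ∑ a ∈ Finset.Ico 1 (rk r F - (C.filter (fun G => G ⊂ F)).sup (rk r)),
      (Polynomial.X : Polynomial ℤ) ^ a = ∏ F ∈ C, ∑ a ∈ tt r C F,
      (Polynomial.X : Polynomial ℤ) ^ a := rfl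
    rw [h2, Finset.prod_sum, Finset.finsupp, Finset.sum_map]
    have h3 : (fun a b : Finset (Fin n) => a.decidableEq b) =
        fun a b => Classical.propDecidable (a = b) := Subsingleton.elim _ _
    refine Finset.sum_congr (by congr) fun p hp => ?_
    rw [Finset.prod_pow_eq_pow_sum]
    congr 1
    rw [Function.Embedding.coeFn_mk, Finsupp.degree_apply]
    rw [Finset.sum_subset (Finsupp.support_indicator_subset C p)]
    · rw [← Finset.sum_attach C]
      refine Finset.sum_congr rfl fun x _ => ?_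
      rw [Finsupp.indicator_of_mem x.2]
    · intro F _ hF
      rwa [Finsupp.notMem_support_iff] at hF
  rw [h1, Polynomial.finsetSum_coeff, Finset.card_filter, Nat.cast_sum]
  refine Finset.sum_congr rfl fun f _ => ?_
  rw [Polynomial.coeff_X_pow]
  by_cases h : f.degree = k
  · rw [if_pos h, if_pos h.symm]; simp
  · rw [if_neg h, if_neg (fun h' => h h'.symm)]; simp

open Classical in
theorem set_eq (r k : ℕ) : {m : Ex n | FY r m ∧ m.degree = k} =
    (((chains ((flats n r).erase ∅)).biUnion fun C =>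
      (C.finsupp (tt r C)).filter fun m => m.degree = k : Finset (Ex n)) : Set (Ex n)) := by
  ext m
  simp only [Set.mem_ofPred_eq, Finset.coe_biUnion, Finset.coe_filter, Set.mem_iUnion]
  rw [fy_iff]
  constructor
  · rintro ⟨⟨C, hC, hm⟩, hk⟩
    exact ⟨C, hC, hm, hk⟩
  · rintro ⟨C, hC, hm, hk⟩
    exact ⟨⟨C, hC, hm⟩, hk⟩

/-- **CNT** -/
theorem p_cnt : P_CNT := by
  classical
  intro n r k _ _
  rw [set_eq]
  refine ⟨Finset.finite_toSet _, ?_⟩
  rw [Set.ncard_coe_finset, Finset.card_biUnion]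
  · rw [chowSeries, Polynomial.finsetSum_coeff, Nat.cast_sum]
    refine Finset.sum_congr rfl fun C _ => ?_
    rw [coeff_prod]
  · intro C _ C' _ hne
    show Disjoint _ _
    rw [Finset.disjoint_left]
    intro m hm hm'
    rw [Finset.mem_filter] at hm hm'
    exact hne ((mem_fin.1 hm.1).1.symm.trans (mem_fin.1 hm'.1).1)

end Pool.Agent.W2helper45.UC.Cn
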