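import Pool.Agent.W2helper45.UC.Stm

/-!
# Project UC: the linear relations and the degree functional
-/

set_option autoImplicit false

namespace Pool.Agent.W2helper45.UC

open MvPolynomial
open Pool.Agent.X153.CH (flats rk chains chowSeries)

variable {n : ℕ}

lemma ch_nat (m k : ℕ) : ch m (k : ℤ) = (m.choose k : ℚ) := by
  rw [ch, if_pos (by positivity), Int.toNat_natCast]

lemma ch_neg (m : ℕ) (k : ℤ) (h : k < 0) : ch m k = 0 := by
  rw [ch, if_neg (by omega)]

lemma ch_pascal (m : ℕ) (k : ℤ) (hm : 1 ≤ m) : ch m (k + 1) = ch (m - 1) k + ch (m - 1) (k + 1) := by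
  obtain ⟨m, rfl⟩ : ∃ a, m = a + 1 := ⟨m - 1, by omega⟩
  rw [Nat.add_sub_cancel]
  rcases lt_trichotomy k (-1) with h | h | h
  · rw [ch_neg _ _ (by omega), ch_neg _ _ (by omega), ch_neg _ _ (by omega), add_zero]
  · subst h
    have h1 : (-1 + 1 : ℤ) = ((0 : ℕ) : ℤ) := by norm_num
    rw [h1, ch_nat, ch_nat, ch_neg _ _ (by norm_num)]
    simp
  · obtain ⟨k, rfl⟩ : ∃ a : ℕ, k = a := ⟨k.toNat, by omega⟩
    have h1 : ((k : ℤ) + 1) = ((k + 1 : ℕ) : ℤ) := by push_cast; ring
    rw [h1, ch_nat, ch_nat, ch_nat, Nat.choose_succ_succ]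
    push_cast
    ring

/-- the least member above `U` -/
lemma exists_least {m : Ex n} {U : Finset (Fin n)}
    (hch : IsChain (· ⊆ ·) (ab m U : Set (Finset (Fin n)))) (hne : (ab m U).Nonempty) :
    ∃ G ∈ ab m U, ∀ H ∈ ab m U, G ⊆ H := by
  obtain ⟨G, hG, hmin⟩ := (ab m U).exists_min_image Finset.card hne
  refine ⟨G, hG, fun H hH => ?_⟩
  rcases eq_or_ne G H with rfl | hne
  · exact Finset.Subset.refl _
  · rcases hch (Finset.mem_coe.2 hG) (Finset.mem_coe.2 hH) hne with h | h
    · exact h
    · exact (Finset.eq_of_subset_of_card_le h (hmin H hH)).symm.subset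

lemma mem_cp {m : Ex n} {U F : Finset (Fin n)} :
    F ∈ cp m U ↔ U ⊂ F ∧ ∀ H ∈ ab m U, F ⊆ H ∨ H ⊆ F := by
  rw [cp, Finset.mem_filter]
  simp

lemma ab_of_least {m : Ex n} {U G : Finset (Fin n)} (hG : G ∈ ab m U)
    (hl : ∀ H ∈ ab m U, G ⊆ H) : ab m U = insert G (ab m G) := by
  have hG' := mem_ab.1 hG
  ext H
  rw [Finset.mem_insert, mem_ab, mem_ab]
  constructor
  · rintro ⟨h1, h2, h3⟩
    rcases eq_or_ne H G with h | h
    · exact Or.inl h
    · exact Or.inr ⟨h1, lt_of_le_of_ne (hl H (mem_ab.2 ⟨h1, h2, h3⟩)) h.symm, h3⟩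
  · rintro (rfl | ⟨h1, h2, h3⟩)
    · exact hG'
    · exact ⟨h1, hG'.2.1.trans h2, h3⟩

lemma cp_sum {m : Ex n} {U G : Finset (Fin n)} (hG : G ∈ ab m U)
    (hl : ∀ H ∈ ab m U, G ⊆ H) (f : Finset (Fin n) → ℚ) :
    ∑ F ∈ cp m U, f F = ∑ F : Finset (Fin n) with U ⊂ F ∧ F ⊂ G, f F + f G + ∑ F ∈ cp m G, f F := by
  classical
  have hG' := mem_ab.1 hG
  have h1 : cp m U = (insert G ({F : Finset (Fin n) | U ⊂ F ∧ F ⊂ G} : Finset _)) ∪ cp m G := by
    ext F
    rw [Finset.mem_union, Finset.mem_insert, Finset.mem_filter, mem_cp, mem_cp,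
      ab_of_least hG hl]
    constructor
    · rintro ⟨h1, h2⟩
      rcases h2 G (Finset.mem_insert_self _ _) with h3 | h3
      · rcases eq_or_ne F G with h4 | h4
        · exact Or.inl (Or.inl h4)
        · exact Or.inl (Or.inr ⟨Finset.mem_univ _, h1, lt_of_le_of_ne h3 h4⟩)
      · rcases eq_or_ne F G with h4 | h4
        · exact Or.inl (Or.inl h4)
        · exact Or.inr ⟨lt_of_le_of_ne h3 h4.symm,
            fun H hH => h2 H (Finset.mem_insert_of_mem hH)⟩
    · rintro ((rfl | ⟨-, h1, h2⟩) | ⟨h1, h2⟩)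
      · refine ⟨hG'.2.1, fun H hH => ?_⟩
        rcases Finset.mem_insert.1 hH with rfl | hH
        · exact Or.inl (Finset.Subset.refl _)
        · exact Or.inl (mem_ab.1 hH).2.1.subset
      · refine ⟨h1, fun H hH => Or.inl ?_⟩
        rcases Finset.mem_insert.1 hH with rfl | hH
        · exact h2.subset
        · exact h2.subset.trans (mem_ab.1 hH).2.1.subset
      · refine ⟨hG'.2.1.trans h1, fun H hH => ?_⟩
        rcases Finset.mem_insert.1 hH with rfl | hH
        · exact Or.inr h1.subset
        · exact h2 H hH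
  have h2 : G ∉ ({F : Finset (Fin n) | U ⊂ F ∧ F ⊂ G} : Finset _) := by
    rw [Finset.mem_filter]
    rintro ⟨-, -, h⟩
    exact ssubset_irrefl _ h
  rw [h1, Finset.sum_union, Finset.sum_insert h2]
  · ring
  · rw [Finset.disjoint_left]
    intro F hF hF'
    have h3 := (mem_cp.1 hF').1
    rcases Finset.mem_insert.1 hF with rfl | hF
    · exact ssubset_irrefl _ h3
    · exact ssubset_irrefl _ (h3.trans (Finset.mem_filter.1 hF).2.2)

lemma deg_of_least {m : Ex n} {U G : Finset (Fin n)} (hG : G ∈ ab m U)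
    (hl : ∀ H ∈ ab m U, G ⊆ H) :
    ∑ H ∈ m.support with U ⊂ H, m H = m G + ∑ H ∈ m.support with G ⊂ H, m H := by
  classical
  have hG' := mem_ab.1 hG
  have h1 : m.support.filter (fun H => U ⊂ H) = insert G (m.support.filter fun H => G ⊂ H) := by
    ext H
    rw [Finset.mem_insert, Finset.mem_filter, Finset.mem_filter]
    constructor
    · rintro ⟨h1, h2⟩
      rcases eq_or_ne H G with h | h
      · exact Or.inl h
      · refine Or.inr ⟨h1, ?_⟩
        by_cases h3 : H = Finset.univ
        · rw [h3]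
          exact lt_of_le_of_ne (Finset.subset_univ _) hG'.2.2
        · exact lt_of_le_of_ne (hl H (mem_ab.2 ⟨h1, h2, h3⟩)) h.symm
    · rintro (rfl | ⟨h1, h2⟩)
      · exact ⟨hG'.1, hG'.2.1⟩
      · exact ⟨h1, hG'.2.1.trans h2⟩
  rw [h1, Finset.sum_insert]
  rw [Finset.mem_filter]
  rintro ⟨-, h⟩
  exact ssubset_irrefl _ h

theorem p_zt (hG : P_GAP) (hI : P_INS) : P_ZT := by
  classical
  intro n m U
  obtain ⟨k, hk⟩ : ∃ k, k = n - U.card := ⟨_, rfl⟩
  induction k using Nat.strong_induction_on generalizing U with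
  | _ k ih =>
  intro b hb hch hdeg
  obtain ⟨B, rfl⟩ : ∃ B : ℕ, b = B := ⟨b.toNat, by omega⟩
  have hUn : U.card + B + 2 ≤ n := by
    have : (0 : ℤ) ≤ ((∑ H ∈ m.support with U ⊂ H, m H : ℕ) : ℤ) := by positivity
    omega
  have hUu : U ⊂ Finset.univ := by
    refine lt_of_le_of_ne (Finset.subset_univ _) ?_
    rintro rfl
    rw [Finset.card_univ, Fintype.card_fin] at hUn
    omega
  obtain ⟨i1, i2, i3, i4, i5, i6⟩ := hI n m U B
  have cnt : ∀ (S : Finset (Finset (Fin n))) (c : ℚ),
      ∑ F ∈ S, (if (F.card : ℤ) = U.card + B + 1 then c else 0) =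
        ((S.filter fun F => F.card = U.card + (B + 1)).card : ℚ) * c := by
    intro S c
    rw [← Finset.sum_filter, Finset.sum_const, nsmul_eq_mul]
    congr 2
    congr 1
    refine Finset.filter_congr fun F _ => ?_
    omega
  rcases (ab m U).eq_empty_or_nonempty with h0 | hne
  · -- no member above `U`
    obtain ⟨g1, g2⟩ := hG n U Finset.univ B hUu
    rw [Finset.card_univ, Fintype.card_fin, if_pos (by omega)] at g1
    have hcp : cp m U = insert Finset.univ
        ({F : Finset (Fin n) | U ⊂ F ∧ F ⊂ Finset.univ} : Finset _) := by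
      ext F
      rw [mem_cp, h0, Finset.mem_insert, Finset.mem_filter]
      constructor
      · rintro ⟨h1, -⟩
        rcases eq_or_ne F Finset.univ with h | h
        · exact Or.inl h
        · exact Or.inr ⟨Finset.mem_univ _, h1, lt_of_le_of_ne (Finset.subset_univ _) h⟩
      · rintro (rfl | ⟨-, h1, -⟩)
        · exact ⟨hUu, by simp⟩
        · exact ⟨h1, by simp⟩
    have hnot : (Finset.univ : Finset (Fin n)) ∉
        ({F : Finset (Fin n) | U ⊂ F ∧ F ⊂ Finset.univ} : Finset _) := by
      rw [Finset.mem_filter]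
      rintro ⟨-, -, h⟩
      exact ssubset_irrefl _ h
    have hf : ∀ F ∈ ({F : Finset (Fin n) | U ⊂ F ∧ F ⊂ Finset.univ} : Finset _),
        D (m + Finsupp.single F 1) U B =
          if (F.card : ℤ) = U.card + B + 1 then (-1) ^ m Finset.univ else 0 := by
      intro F hF
      have := (Finset.mem_filter.1 hF).2
      exact i5 h0 F this.1 this.2.ne
    constructor
    · rw [hcp, Finset.sum_insert hnot, Finset.sum_congr rfl hf, cnt, i6 h0, D_top h0,
        Finset.filter_filter]
      have h1 : (Finset.univ.filter fun F : Finset (Fin n) =>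
          (U ⊂ F ∧ F ⊂ Finset.univ) ∧ F.card = U.card + (B + 1)).card =
            (n - U.card).choose (B + 1) := by
        rw [← g1]
        congr 1
        refine Finset.filter_congr fun F _ => by tauto
      rw [h1, ch_nat]
      have h2 : ((B : ℤ) + 1) = ((B + 1 : ℕ) : ℤ) := by push_cast; ring
      rw [h2, ch_nat]
      obtain ⟨N, hN⟩ : ∃ N, n - U.card = N + 1 := ⟨n - U.card - 1, by omega⟩
      rw [hN, Nat.add_sub_cancel, Nat.choose_succ_succ]
      push_cast
      ring
    · intro i hi
      have g3 := g2 i (Finset.mem_univ _) hi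
      rw [Finset.card_univ, Fintype.card_fin, if_pos (by omega)] at g3
      rw [Finset.sum_filter, hcp, Finset.sum_insert hnot, if_pos (Finset.mem_univ _),
        ← Finset.sum_filter, Finset.sum_congr rfl (fun F hF => hf F (Finset.mem_filter.1 hF).1),
        cnt, i6 h0, Finset.filter_filter, Finset.filter_filter]
      have h1 : (Finset.univ.filter fun F : Finset (Fin n) =>
          (U ⊂ F ∧ F ⊂ Finset.univ) ∧ i ∈ F ∧ F.card = U.card + (B + 1)).card =
            (n - U.card - 1).choose B := by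
        rw [← g3]
        congr 1
        refine Finset.filter_congr fun F _ => by tauto
      rw [h1, ch_nat]
      ring
  · -- the least member `G` above `U`
    obtain ⟨G, hGm, hl⟩ := exists_least hch hne
    have hG' := mem_ab.1 hGm
    have hUG := Finset.card_lt_card hG'.2.1
    have hGn : G.card < n := by
      have := Finset.card_lt_card (lt_of_le_of_ne (Finset.subset_univ _) hG'.2.2)
      rwa [Finset.card_univ, Fintype.card_fin] at this
    have hd1 : 1 ≤ m G := Nat.one_le_iff_ne_zero.2 (Finsupp.mem_support_iff.1 hG'.1)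
    obtain ⟨g, hg⟩ : ∃ g, g = G.card - U.card := ⟨_, rfl⟩
    obtain ⟨b', hb'⟩ : ∃ b' : ℤ, b' = B + m G - (G.card - U.card) := ⟨_, rfl⟩
    have hb1 : ((B : ℤ) + 1 + m G - (G.card - U.card)) = b' + 1 := by rw [hb']; ring
    have hch' : IsChain (· ⊆ ·) (ab m G : Set (Finset (Fin n))) := by
      refine hch.mono ?_
      rw [ab_of_least hGm hl]
      exact Finset.coe_subset.2 (Finset.subset_insert _ _)
    have hdeg' : ((∑ H ∈ m.support with G ⊂ H, m H : ℕ) : ℤ) + b' + 2 + G.card = n := by
      rw [deg_of_least hGm hl] at hdeg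
      push_cast at hdeg ⊢
      rw [hb']
      linarith
    have hih := fun h : 0 ≤ b' => ih (n - G.card) (by omega) G rfl b' h hch' hdeg'
    obtain ⟨g1, g2⟩ := hG n U G B hG'.2.1
    rw [← hg] at g1
    -- the values
    obtain ⟨c0, hc0⟩ : ∃ c, c = ch (m G - 1) b' := ⟨_, rfl⟩
    obtain ⟨c1, hc1⟩ : ∃ c, c = ch (m G - 1) (b' + 1) := ⟨_, rfl⟩
    obtain ⟨s, hs⟩ : ∃ s : ℚ, s = (-1) ^ (m G - 1) := ⟨_, rfl⟩
    obtain ⟨Dd, hDd⟩ : ∃ d, d = D m G (b' + 1) := ⟨_, rfl⟩
    have hc : ch (m G) (b' + 1) = c0 + c1 := by rw [ch_pascal _ _ hd1, hc0, hc1]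
    have hs' : (-1 : ℚ) ^ m G = - s := by
      rw [hs]
      obtain ⟨d, hd⟩ : ∃ d, m G = d + 1 := ⟨m G - 1, by omega⟩
      rw [hd, Nat.add_sub_cancel, pow_succ]
      ring
    have f1 : ∀ F : Finset (Fin n), U ⊂ F ∧ F ⊂ G → D (m + Finsupp.single F 1) U B =
        if (F.card : ℤ) = U.card + B + 1 then s * c1 * Dd else 0 := by
      intro F hF
      rw [i2 G hGm hl F hF.1 hF.2, hb1, hs, hc1, hDd]
    have f2 : D (m + Finsupp.single G 1) U B = (g - 1).choose B * (- s * (c0 + c1)) * Dd := by
      rw [i3 G hGm hl, hb1, hc, hs', hDd, ch_nat, ← hg]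
    have f3 : ∀ F ∈ cp m G, D (m + Finsupp.single F 1) U B =
        (g - 1).choose B * (s * c0) * D (m + Finsupp.single F 1) G b' := by
      intro F hF
      rw [i4 G hGm hl F (mem_cp.1 hF).1, ← hb', ← hc0, ← hs, ch_nat, ← hg]
    have key : ((g - 1).choose B : ℚ) * c1 = if B + 1 < g then ((g - 1).choose B : ℚ) * c1 else 0 := by
      split_ifs with h
      · rfl
      · rcases Nat.lt_or_ge (g - 1) B with h1 | h1
        · rw [Nat.choose_eq_zero_of_lt h1]
          simp
        · have h4 : g = B + 1 := by omega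
          have h5 : (G.card : ℤ) - U.card = B + 1 := by omega
          have h2 : b' + 1 = ((m G : ℕ) : ℤ) := by
            rw [hb', h5]
            ring
          rw [hc1, h2, ch_nat, Nat.choose_eq_zero_of_lt (show m G - 1 < m G by omega)]
          simp
    have hsum : c0 * ∑ F ∈ cp m G, D (m + Finsupp.single F 1) G b' = c0 * Dd := by
      rcases lt_or_ge b' 0 with h | h
      · rw [hc0, ch_neg _ _ h, zero_mul, zero_mul]
      · rw [(hih h).1, hDd]
    constructor
    · rw [cp_sum hGm hl, f2, Finset.sum_congr rfl (fun F hF => f1 F (Finset.mem_filter.1 hF).2),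
        cnt, Finset.sum_congr rfl f3, ← Finset.mul_sum, D_least hGm hl, hb1, ← hs, ← hc1, ← hDd,
        Finset.filter_filter, ← hg]
      have h1 : (Finset.univ.filter fun F : Finset (Fin n) =>
          (U ⊂ F ∧ F ⊂ G) ∧ F.card = U.card + (B + 1)).card =
            if B + 1 < g then g.choose (B + 1) else 0 := by
        rw [← g1]
        congr 1
        refine Finset.filter_congr fun F _ => by tauto
      rw [h1]
      have h2 : ((B : ℤ) + 1) = ((B + 1 : ℕ) : ℤ) := by push_cast; ring
      rw [h2, ch_nat]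
      obtain ⟨N, hN⟩ : ∃ N, g = N + 1 := ⟨g - 1, by omega⟩
      rw [hN] at key ⊢
      rw [Nat.add_sub_cancel] at key ⊢
      split_ifs at key ⊢ with h3
      · rw [Nat.choose_succ_succ]
        push_cast
        linear_combination ((N.choose B : ℚ)) * s * hsum
      · rw [Nat.choose_eq_zero_of_lt (show N < B + 1 by omega)]
        push_cast
        linear_combination ((N.choose B : ℚ)) * s * hsum - s * Dd * key
    · intro i hi
      by_cases hiG : i ∈ G
      · have g3 := g2 i hiG hi
        rw [Finset.sum_filter, cp_sum hGm hl, if_pos hiG, f2]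
        have h1 : ∀ F ∈ cp m G, (if i ∈ F then D (m + Finsupp.single F 1) U B else 0) =
            (g - 1).choose B * (s * c0) * D (m + Finsupp.single F 1) G b' := by
          intro F hF
          rw [if_pos ((mem_cp.1 hF).1.subset hiG), f3 F hF]
        rw [Finset.sum_congr rfl h1, ← Finset.mul_sum, ← Finset.sum_filter, Finset.filter_filter,
          Finset.sum_congr rfl (fun F hF => f1 F (Finset.mem_filter.1 hF).2.1), cnt,
          Finset.filter_filter]
        have h2 : (Finset.univ.filter fun F : Finset (Fin n) =>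
            ((U ⊂ F ∧ F ⊂ G) ∧ i ∈ F) ∧ F.card = U.card + (B + 1)).card =
              if B + 1 < g then (g - 1).choose B else 0 := by
          rw [hg, ← g3]
          congr 1
          refine Finset.filter_congr fun F _ => by tauto
        rw [h2]
        split_ifs at key ⊢ with h3
        · linear_combination (((g - 1).choose B : ℚ)) * s * hsum
        · push_cast
          linear_combination (((g - 1).choose B : ℚ)) * s * hsum - s * Dd * key
      · rw [Finset.sum_filter, cp_sum hGm hl, if_neg hiG]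
        have h1 : ∑ F : Finset (Fin n) with U ⊂ F ∧ F ⊂ G,
            (if i ∈ F then D (m + Finsupp.single F 1) U B else 0) = 0 := by
          refine Finset.sum_eq_zero fun F hF => if_neg fun h => hiG ?_
          exact (Finset.mem_filter.1 hF).2.2.subset h
        rw [h1, ← Finset.sum_filter,
          Finset.sum_congr rfl (fun F hF => f3 F (Finset.mem_filter.1 hF).1), ← Finset.mul_sum]
        rcases lt_or_ge b' 0 with h | h
        · rw [hc0, ch_neg _ _ h]
          ring
        · rw [(hih h).2 i hiG]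
          ring

end Pool.Agent.W2helper45.UC
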