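import Pool.Agent.W2helper45.UC.Asm
import Pool.Agent.W2helper45.UC.Zt
import Pool.Agent.W2helper92.UC.Rel
import Pool.Agent.W2helper85.UC.Up
import Pool.Agent.W2helper84.UC.Span
import Pool.Agent.W2helper95.UC.Gap
import Pool.Agent.W2helper95.UC.Ins
import Pool.Agent.W2helper53.UC.Bd
import Pool.Agent.W2helper53.UC.Deg
import Pool.Agent.W2helper39.UC.Dia
import Pool.Agent.W2helper39.UC.Map
import Pool.Agent.W2helper20.UC.Tri
import Pool.Agent.W2helper71.UC.Fun
import Pool.Agent.W4helper65.UC.Ind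
import Pool.Agent.W2helper45.UC.Cnt

/-!
# Project UC: all pieces together
-/

set_option autoImplicit false

namespace Pool.Agent.W2helper45.UC

/-- the theorem of Feichtner and Yuzvinsky for uniform matroids -/
theorem all_asm : P_ASM :=
  p_asm (Pool.Agent.W2helper84.UC.p_span Pool.Agent.W2helper92.UC.p_rel
      Pool.Agent.W2helper85.UC.p_up)
    Pool.Agent.W2helper39.UC.p_map
    (Pool.Agent.W4helper65.UC.p_ind
      (Pool.Agent.W2helper71.UC.p_fun
        (p_zt Pool.Agent.W2helper95.UC.p_gap Pool.Agent.W2helper95.UC.p_ins)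
        Pool.Agent.W2helper53.UC.p_bd)
      Pool.Agent.W2helper53.UC.p_deg Pool.Agent.W2helper39.UC.p_dia
      Pool.Agent.W2helper20.UC.p_tri Pool.Agent.W2helper39.UC.p_map)
    Cn.p_cnt

end Pool.Agent.W2helper45.UC
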