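import Pool.Agent.W2helper45.UC.Stm

/-!
# Project UC: assembly
-/

set_option autoImplicit false

namespace Pool.Agent.W2helper45.UC

open MvPolynomial
open Pool.Agent.X153.CH (flats rk chains chowSeries)

theorem p_asm (hS : P_SPAN) (hM : P_MAP) (hI : P_IND) (hC : P_CNT) : P_ASM := by
  intro n r hr hn
  obtain ⟨i₀⟩ : Nonempty (Fin n) := ⟨⟨0, by omega⟩⟩
  ext k
  rw [hilb, PowerSeries.coeff_mk, Polynomial.coeff_coe]
  obtain ⟨hfin, hcard⟩ := hC n r k hr hn
  obtain ⟨hrel, hgr, -⟩ := hM n r i₀ hr hn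
  rw [← hcard]
  congr 1
  have : Fintype {m : Ex n // FY r m ∧ m.degree = k} := hfin.fintype
  have h1 := finrank_span_eq_card (hI n r i₀ k hr hn)
  have h2 : Submodule.span ℚ (Set.range
      (fun m : {m : Ex n // FY r m ∧ m.degree = k} => mon (xc n r i₀) m.1)) = gr n r k := by
    rw [hgr k]
    apply le_antisymm
    · apply Submodule.span_mono
      rintro y ⟨m, rfl⟩
      exact ⟨m.1, m.2.2, rfl⟩
    · rw [Submodule.span_le]
      rintro y ⟨m, hm, rfl⟩
      refine Submodule.span_mono ?_ (hS n r (Chow n r) (xc n r i₀) hrel hr hn m)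
      rintro y ⟨m', h3, h4, rfl⟩
      exact ⟨⟨m', h3, h4.trans hm⟩, rfl⟩
  rw [h2] at h1
  rw [h1, ← Nat.card_eq_fintype_card]
  rfl

/-- the final theorem, given the Hilbert series -/
theorem final (h : P_ASM) (n r : ℕ) (hr : 1 ≤ r) (hn : r < n) :
    ((Pool.Agent.X153.CH.hPoly (chains (flats n r)) : Polynomial ℤ) : PowerSeries ℤ) =
      PowerSeries.X ^ 2 * ∑ j ∈ Finset.Icc 1 r,
        ((n - j - 1).choose (r - j) : PowerSeries ℤ) * hilb n j := by
  rw [Pool.Agent.X153.CH.main n r hr hn, Polynomial.coe_mul, Polynomial.coe_pow,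
    Polynomial.coe_X]
  congr 1
  rw [← Polynomial.coeToPowerSeries.ringHom_apply, map_sum]
  refine Finset.sum_congr rfl fun j hj => ?_
  rw [Finset.mem_Icc] at hj
  rw [map_mul, map_natCast, Polynomial.coeToPowerSeries.ringHom_apply, h n j hj.1 (by omega)]

end Pool.Agent.W2helper45.UC
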