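import Pool.Agent.X153.CH.Main

/-!
# Project UC: the Chow ring of the uniform matroid `U_{n,r}` (definitions)
-/

set_option autoImplicit false

namespace Pool.Agent.W2helper45.UC

open MvPolynomial
open Pool.Agent.X153.CH (flats rk chains)

variable {n : ℕ}

/-! ### The literal Chow ring -/

/-- the nonempty proper flats of `U_{n,r}` -/
abbrev Fl (n r : ℕ) : Type := {F : Finset (Fin n) // F ∈ flats n r ∧ F ≠ ∅ ∧ F ≠ Finset.univ}

/-- The ideal `I + J`: `I` is generated by the products `x_F x_G` with `F`, `G` incomparable, `J` by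
the linear forms `∑_{F ∋ i} x_F - ∑_{F ∋ j} x_F`. -/
noncomputable def chowIdeal (n r : ℕ) : Ideal (MvPolynomial (Fl n r) ℚ) :=
  Ideal.span {p | ∃ F G : Fl n r, ¬ F.1 ⊆ G.1 ∧ ¬ G.1 ⊆ F.1 ∧ p = X F * X G} ⊔
    Ideal.span {p | ∃ i j : Fin n,
      p = ∑ F : Fl n r with i ∈ F.1, X F - ∑ F : Fl n r with j ∈ F.1, X F}

/-- The Chow ring of `U_{n,r}` over `ℚ`. -/
abbrev Chow (n r : ℕ) : Type := MvPolynomial (Fl n r) ℚ ⧸ chowIdeal n r

/-- The part of degree `k` of the Chow ring: the image of the homogeneous polynomials of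
degree `k`. -/
noncomputable def gr (n r k : ℕ) : Submodule ℚ (Chow n r) :=
  (homogeneousSubmodule (Fl n r) ℚ k).map (Ideal.Quotient.mkₐ ℚ (chowIdeal n r)).toLinearMap

/-- The Hilbert series of the Chow ring of `U_{n,r}`. -/
noncomputable def hilb (n r : ℕ) : PowerSeries ℤ :=
  PowerSeries.mk fun k => (Module.finrank ℚ (gr n r k) : ℤ)

/-! ### Exponents -/

/-- nonempty flats of `U_{n,r}`, the whole set included -/
def IsFl (r : ℕ) (F : Finset (Fin n)) : Prop := F.Nonempty ∧ (F.card < r ∨ F = Finset.univ)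

/-- exponents of monomials in variables indexed by all subsets -/
abbrev Ex (n : ℕ) : Type := Finset (Fin n) →₀ ℕ

/-- the support is a chain of nonempty flats -/
def IsCh (r : ℕ) (m : Ex n) : Prop :=
  (∀ F ∈ m.support, IsFl r F) ∧ IsChain (· ⊆ ·) (m.support : Set (Finset (Fin n)))

/-- the value of `ρ` at the predecessor of `F` in the support of `m`, `0` if there is none -/
def pr (ρ : Finset (Fin n) → ℕ) (m : Ex n) (F : Finset (Fin n)) : ℕ :=
  (m.support.filter fun G => G ⊂ F).sup ρ

/-- the exponents of Feichtner and Yuzvinsky -/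
def FY (r : ℕ) (m : Ex n) : Prop := IsCh r m ∧ ∀ F ∈ m.support, m F + pr (rk r) m F < rk r F

/-- the monomial with exponent `m` in the elements `x F` -/
noncomputable def mon {A : Type} [CommRing A] (x : Finset (Fin n) → A) (m : Ex n) : A :=
  m.prod fun F a => x F ^ a

/-- The relations of the Chow ring of `U_{n,r}`, where `x E` is minus the class `∑_{F ∋ i} x F`. -/
structure Rel {A : Type} [CommRing A] (r : ℕ) (x : Finset (Fin n) → A) : Prop where
  zero : ∀ F, ¬ IsFl r F → x F = 0
  inc : ∀ F G, ¬ F ⊆ G → ¬ G ⊆ F → x F * x G = 0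
  lin : ∀ i : Fin n, ∑ F : Finset (Fin n) with i ∈ F, x F = 0

/-! ### The degree functional -/

/-- binomial coefficients, zero for negative `k` -/
def ch (m : ℕ) (k : ℤ) : ℚ := if 0 ≤ k then (m.choose k.toNat : ℚ) else 0

/-- the members of the support strictly between `U` and the whole set -/
def ab (m : Ex n) (U : Finset (Fin n)) : Finset (Finset (Fin n)) :=
  m.support.filter fun H => U ⊂ H ∧ H ≠ Finset.univ

/-- the degree of `β ^ b * x ^ m` on the interval from `U` to the whole set `E`; only the part of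
`m` above `U` matters -/
noncomputable def D (m : Ex n) (U : Finset (Fin n)) (b : ℤ) : ℚ :=
  if _h : (ab m U).Nonempty ∧ U ⊂ (ab m U).inf id then
    ch (((ab m U).inf id).card - U.card - 1) b *
      ((-1) ^ (m ((ab m U).inf id) - 1) *
        ch (m ((ab m U).inf id) - 1)
          (b + m ((ab m U).inf id) - (((ab m U).inf id).card - U.card))) *
      D m ((ab m U).inf id) (b + m ((ab m U).inf id) - (((ab m U).inf id).card - U.card))
  else (-1) ^ m Finset.univ * ch (n - U.card - 1) b
termination_by n - U.card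
decreasing_by
  have h1 := Finset.card_lt_card _h.2
  have h2 := Finset.card_le_univ ((ab m U).inf id)
  rw [Fintype.card_fin] at h2
  omega

open Classical in
/-- the degree of a monomial -/
noncomputable def Df (m : Ex n) : ℚ :=
  if (∅ : Finset (Fin n)) ∉ m.support ∧ IsChain (· ⊆ ·) (m.support : Set (Finset (Fin n))) then
    D m ∅ 0
  else 0

/-- the exponent of the dual monomial -/
noncomputable def du (m : Ex n) : Ex n :=
  Finsupp.onFinset (insert Finset.univ m.support)
    (fun H => if H = Finset.univ then n - 1 - pr Finset.card m Finset.univ - m Finset.univ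
      else if H ∈ m.support then H.card - pr Finset.card m H - m H else 0)
    (by
      intro H hH
      by_contra hcon
      rw [Finset.mem_insert, not_or] at hcon
      apply hH
      rw [if_neg hcon.1, if_neg hcon.2])

theorem D_top {m : Ex n} {U : Finset (Fin n)} {b : ℤ} (h : ab m U = ∅) :
    D m U b = (-1) ^ m Finset.univ * ch (n - U.card - 1) b := by
  rw [D, dif_neg]
  rw [h]
  simp

theorem mem_ab {m : Ex n} {U H : Finset (Fin n)} :
    H ∈ ab m U ↔ H ∈ m.support ∧ U ⊂ H ∧ H ≠ Finset.univ := by
  rw [ab, Finset.mem_filter]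

/-- the recursion: `F` is the least member of the support above `U` -/
theorem D_least {m : Ex n} {U F : Finset (Fin n)} {b : ℤ} (hF : F ∈ ab m U)
    (hl : ∀ H ∈ ab m U, F ⊆ H) :
    D m U b = ch (F.card - U.card - 1) b *
      ((-1) ^ (m F - 1) * ch (m F - 1) (b + m F - (F.card - U.card))) *
      D m F (b + m F - (F.card - U.card)) := by
  have h1 : (ab m U).inf id = F :=
    le_antisymm (Finset.inf_le (f := id) hF) (Finset.le_inf fun H hH => hl H hH)
  rw [D, dif_pos ⟨⟨F, hF⟩, by rw [h1]; exact (mem_ab.1 hF).2.1⟩, h1]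

end Pool.Agent.W2helper45.UC
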