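import Pool.Agent.W2helper45.UC.Defs

/-!
# Project UC (MP_0f948c_co): statements of the pieces

Goal: the Hilbert series of the literal Chow ring of `U_{n,r}` is `chowSeries n r`
(Feichtner-Yuzvinsky), hence Q1 in full with `Pool.Agent.X153.CH.main`.

Piece `XXX`: file `Pool/Agent/W2<you>/UC/Xxx.lean`, importing only this file (and the file of a
piece you need, if you like); theorem `p_xxx : P_XXX`, or with the hypotheses listed below.
-/

set_option autoImplicit false

namespace Pool.Agent.W2helper45.UC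

open MvPolynomial
open Pool.Agent.X153.CH (flats rk chains chowSeries)

/-! ### Spanning -/

/-- **REL** `p_rel : P_REL`.
Strong induction on `d = rk G - rk F > 0`. Pick `i ∈ G \ F`. `x_F * lin i` gives
`x_F * ∑_{H ⊋ F, i ∈ H} x_H = 0` (the `H ∋ i` incomparable to `F` vanish by `inc`; for `F = ∅` read
`x_F = 1`). With `g = ∑_{H ⊇ G} x_H`: `x_F g = - x_F ∑_{H ⊋ F, i ∈ H, not H ⊇ G} x_H`. Multiply by
`g ^ (d-1)`: for such a flat `H` (`H.card < r`) one has `x_H g = x_H g'`, `g' = ∑_{H' ⊇ G'} x_H'`,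
`G' = G ∪ H` if its card is `< r`, else `univ`; and `rk G' - rk H ≤ d - 1`, so `x_H g' ^ (d-1) = 0`
by induction. -/
def P_REL : Prop := ∀ (n r : ℕ) (A : Type) [CommRing A] (x : Finset (Fin n) → A), Rel r x → 1 ≤ r →
  r ≤ n → ∀ F G : Finset (Fin n), (F = ∅ ∨ IsFl r F) → IsFl r G → F ⊂ G →
    (if F = ∅ then 1 else x F) * (∑ H : Finset (Fin n) with G ⊆ H, x H) ^ (rk r G - rk r F) = 0

/-- weight -/
noncomputable def wt {n : ℕ} (r : ℕ) (m : Ex n) : ℕ := m.sum fun F a => a * rk r F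

/-- **UP** `p_up : P_UP`. Expand the power; the terms other than `x_G ^ c` are monomials in
`x_H`, `H ⊇ G` flats (the others vanish), not all equal to `G`, and `rk H > rk G` for flats `H ⊋ G`.
(Induction on `c` is convenient: `g^(c+1) - x_G^(c+1) = g (g^c - x_G^c) + (g - x_G) x_G^c`.) -/
def P_UP : Prop := ∀ (n r : ℕ) (A : Type) [CommRing A] [Algebra ℚ A] (x : Finset (Fin n) → A),
  Rel r x → 1 ≤ r → r ≤ n → ∀ G : Finset (Fin n), IsFl r G → ∀ (c : ℕ) (m : Ex n),
    mon x m * ((∑ H : Finset (Fin n) with G ⊆ H, x H) ^ c - x G ^ c) ∈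
      Submodule.span ℚ {y | ∃ m' : Ex n, m'.degree = m.degree + c ∧
        wt r m + c * rk r G < wt r m' ∧ y = mon x m'}

/-- **SPAN** `p_span : P_REL → P_UP → P_SPAN`. Induction on `r * m.degree - wt r m`. If `IsCh r m`
fails then `mon x m = 0`. If `FY` fails at `G ∈ m.support`, let `F` be the member of the support
right below `G` (or `∅`), `d = rk r G - rk r F ≤ m G`, `m₀ = m - single G d`. Then
`mon x m₀ * g ^ d = 0` by `P_REL` (`x F` divides `mon x m₀` if `F ≠ ∅`), so
`mon x m = mon x m₀ * x_G ^ d = - mon x m₀ * (g ^ d - x_G ^ d)`; apply `P_UP` and the induction. -/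
def P_SPAN : Prop := ∀ (n r : ℕ) (A : Type) [CommRing A] [Algebra ℚ A] (x : Finset (Fin n) → A),
  Rel r x → 1 ≤ r → r ≤ n → ∀ m : Ex n,
    mon x m ∈ Submodule.span ℚ {y | ∃ m' : Ex n, FY r m' ∧ m'.degree = m.degree ∧ y = mon x m'}

/-! ### The degree functional -/

/-- **GAP** `p_gap : P_GAP`. Counting subsets between `U` and `G`. -/
def P_GAP : Prop := ∀ (n : ℕ) (U G : Finset (Fin n)) (k : ℕ), U ⊂ G →
  (({F : Finset (Fin n) | U ⊂ F ∧ F ⊂ G ∧ F.card = U.card + (k + 1)} : Finset _).card =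
    if k + 1 < G.card - U.card then (G.card - U.card).choose (k + 1) else 0) ∧
  ∀ i ∈ G, i ∉ U →
    ({F : Finset (Fin n) | U ⊂ F ∧ F ⊂ G ∧ i ∈ F ∧ F.card = U.card + (k + 1)} : Finset _).card =
      if k + 1 < G.card - U.card then (G.card - U.card - 1).choose k else 0

/-- the sets above `U`, comparable to the members of the support above `U` -/
def cp {n : ℕ} (m : Ex n) (U : Finset (Fin n)) : Finset (Finset (Fin n)) :=
  {F : Finset (Fin n) | U ⊂ F ∧ ∀ H ∈ ab m U, F ⊆ H ∨ H ⊆ F}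

/-- **INS** `p_ins : P_INS`. Effect of one more factor `x_F` on `D`:
(1) `D m F b` only sees the part of `m` strictly above `F`;
(2), (3) `U ⊂ F ⊂ G`, `F ∉ m.support`, where `G` is the least member of the support above `U`
(resp. there is none, `ab m U = ∅`, and `F ≠ univ`): `D` is nonzero only if
`F.card = U.card + b + 1`, and then it has the stated value. Here `g = G.card - U.card`. -/
def P_INS : Prop := ∀ (n : ℕ) (m : Ex n) (U : Finset (Fin n)) (b : ℤ),
  (∀ F, F ⊆ U → F ≠ Finset.univ → D (m + Finsupp.single F 1) U b = D m U b) ∧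
  (∀ G ∈ ab m U, (∀ H ∈ ab m U, G ⊆ H) → ∀ F, U ⊂ F → F ⊂ G →
    D (m + Finsupp.single F 1) U b = if (F.card : ℤ) = U.card + b + 1 then
      (-1) ^ (m G - 1) * ch (m G - 1) (b + 1 + m G - (G.card - U.card)) *
        D m G (b + 1 + m G - (G.card - U.card)) else 0) ∧
  (∀ G ∈ ab m U, (∀ H ∈ ab m U, G ⊆ H) →
    D (m + Finsupp.single G 1) U b = ch (G.card - U.card - 1) b *
      ((-1) ^ m G * ch (m G) (b + 1 + m G - (G.card - U.card))) *
        D m G (b + 1 + m G - (G.card - U.card))) ∧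
  (∀ G ∈ ab m U, (∀ H ∈ ab m U, G ⊆ H) → ∀ F, G ⊂ F →
    D (m + Finsupp.single F 1) U b = ch (G.card - U.card - 1) b *
      ((-1) ^ (m G - 1) * ch (m G - 1) (b + m G - (G.card - U.card))) *
        D (m + Finsupp.single F 1) G (b + m G - (G.card - U.card))) ∧
  (ab m U = ∅ → ∀ F, U ⊂ F → F ≠ Finset.univ → D (m + Finsupp.single F 1) U b =
    if (F.card : ℤ) = U.card + b + 1 then (-1) ^ m Finset.univ else 0) ∧
  (ab m U = ∅ → D (m + Finsupp.single Finset.univ 1) U b =
    - (-1) ^ m Finset.univ * ch (n - U.card - 1) b)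

/-- **ZT** `p_zt : P_GAP → P_INS → P_ZT`. Strong induction on `n - U.card`, both parts together. If
`ab m U = ∅`: by `P_INS` and `P_GAP` (with `G = univ`); note `b + 2 ≤ n - U.card`. Otherwise let `G`
be the least member of `ab m U`, `g = G.card - U.card`, `d = m G`, `b' = b + d - g`. The sets in
`cp m U` are: the `F` with `U ⊂ F ⊂ G`, `F = G`, and `cp m G`. (`T`): the three parts give, up to the
factor `(-1)^(d-1) D m G (b'+1)`: `[b+1<g] C(g,b+1) C(d-1,b'+1)`, `- C(g-1,b) C(d,b'+1)`,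
`C(g-1,b) C(d-1,b')` (by induction; if `b' < 0` it is zero), the sum is `C(g-1,b+1) C(d-1,b'+1)`.
(`Z`), `i ∈ G`: the same with `[b+1<g] C(g-1,b) C(d-1,b'+1)` in place of the first, sum zero (if
`b = g-1` then `b' = d-1`). (`Z`), `i ∉ G`: only `F ∈ cp m G`, by induction. -/
def P_ZT : Prop := ∀ (n : ℕ) (m : Ex n) (U : Finset (Fin n)) (b : ℤ), 0 ≤ b →
  IsChain (· ⊆ ·) (ab m U : Set (Finset (Fin n))) →
  ((∑ H ∈ m.support with U ⊂ H, m H : ℕ) : ℤ) + b + 2 + U.card = n →
  ∑ F ∈ cp m U, D (m + Finsupp.single F 1) U b = D m U (b + 1) ∧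
  ∀ i ∉ U, ∑ F ∈ cp m U with i ∈ F, D (m + Finsupp.single F 1) U b = 0

/-- **BD** `p_bd : P_BD`. Induction along `D_least`: the factor of `K` is nonzero. -/
def P_BD : Prop := ∀ (n : ℕ) (m : Ex n) (U : Finset (Fin n)) (b : ℤ),
  IsChain (· ⊆ ·) (ab m U : Set (Finset (Fin n))) → D m U b ≠ 0 → ∀ K ∈ ab m U,
    (K.card : ℤ) ≤ U.card + b + ((∑ H ∈ m.support with U ⊂ H ∧ H ⊆ K, m H : ℕ) : ℤ)

/-- **DEG** `p_deg : P_DEG`. Telescoping: the proper members of the support contribute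
`H.card - pr card m H`, in total `pr card m univ`; `rk = card` on the proper flats. -/
def P_DEG : Prop := ∀ (n r : ℕ) (m : Ex n), 1 ≤ r → r ≤ n → FY r m →
  m.degree + (du m).degree = n - 1 ∧ n - r ≤ du m Finset.univ

/-- **DIA** `p_dia : P_DIA`. Along the chain the second argument of `D` stays `0`; all binomials
are `C(_, 0) = 1`. -/
def P_DIA : Prop := ∀ (n r : ℕ) (m : Ex n), 1 ≤ r → r ≤ n → FY r m → Df (m + du m) ≠ 0

/-- the exponent of the members with `t` elements -/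
def lv {n : ℕ} (m : Ex n) (t : ℕ) : ℕ := ∑ F ∈ m.support with F.card = t, m F

/-- **TRI** `p_tri : P_TRI`. `M = m + du m'`. Go up along the common initial part of the two chains:
as long as the members and their exponents agree, `b = 0`. Let `K` be the next member of
`m.support ∪ m'.support`, `K ≠ univ`, above the last common one `U` (or `∅`). If `K` is in only one
of the supports then `M K ≤ K.card - U.card - 1` and `C(M K - 1, b') = 0` as `b' < 0`. If in both,
`b' = m K - m' K ≥ 0`: either equal, continue with `b = 0`, or `m' K < m K` and `s = K.card` works.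
If there is no such `K`, then `m = m'` off `univ`, so `m = m'` by the degree. -/
def P_TRI : Prop := ∀ (n r : ℕ) (m m' : Ex n), 1 ≤ r → r ≤ n → FY r m → FY r m' →
  m.degree = m'.degree → Df (m + du m') ≠ 0 →
    m = m' ∨ ∃ s, (∀ t < s, lv m t = lv m' t) ∧ lv m' s < lv m s

/-- the ideal of the relations in all variables -/
noncomputable def kI (n r : ℕ) : Ideal (MvPolynomial (Finset (Fin n)) ℚ) :=
  Ideal.span ({p | ∃ F : Finset (Fin n), ¬ IsFl r F ∧ p = X F} ∪
    {p | ∃ F G : Finset (Fin n), ¬ F ⊆ G ∧ ¬ G ⊆ F ∧ p = X F * X G} ∪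
    {p | ∃ i : Fin n, p = ∑ F : Finset (Fin n) with i ∈ F, X F})

/-- **FUN** `p_fun : P_ZT → P_BD → P_FUN`. `lam (monomial m a) = a * Df (m + single univ (n - r))`
if `m.degree + 1 = r`, else `0`. On a monomial multiple of `X F`, `F` not a flat: `F = ∅` clear; if
`r ≤ F.card`, `F ≠ univ`, use `P_BD` with `U = ∅`, `b = 0`, `K = F`. On `X F * X G * monomial`: not
a chain. On `monomial m * ∑_{F ∋ i} X F` (`m.degree + 2 = r`): `P_ZT` with `U = ∅`, `b = 0` and
`m + single univ (n - r)`; `F` not comparable to the support: `Df = 0`. -/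
def P_FUN : Prop := ∀ n r : ℕ, 1 ≤ r → r ≤ n → ∃ lam : MvPolynomial (Finset (Fin n)) ℚ →ₗ[ℚ] ℚ,
  (∀ m : Ex n, m.degree + 1 = r →
    lam (monomial m 1) = Df (m + Finsupp.single Finset.univ (n - r))) ∧ ∀ p ∈ kI n r, lam p = 0

/-! ### Assembly -/

open Classical in
/-- the elements `x_F` of the Chow ring, for all `F`; `x_E = - ∑_{F ∋ i₀} x_F` -/
noncomputable def xc (n r : ℕ) (i₀ : Fin n) (F : Finset (Fin n)) : Chow n r :=
  if h : F ∈ flats n r ∧ F ≠ ∅ ∧ F ≠ Finset.univ then Ideal.Quotient.mk _ (X ⟨F, h⟩)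
  else if F = Finset.univ then
    - ∑ G : Fl n r with i₀ ∈ G.1, Ideal.Quotient.mk (chowIdeal n r) (X G)
  else 0

/-- **MAP** `p_map : P_MAP`. Straightforward from the definitions. -/
def P_MAP : Prop := ∀ (n r : ℕ) (i₀ : Fin n), 1 ≤ r → r ≤ n → Rel r (xc n r i₀) ∧
  (∀ k, gr n r k = Submodule.span ℚ {y | ∃ m : Ex n, m.degree = k ∧ y = mon (xc n r i₀) m}) ∧
  ∃ φ : Chow n r →ₐ[ℚ] (MvPolynomial (Finset (Fin n)) ℚ ⧸ kI n r),
    ∀ F, φ (xc n r i₀ F) = Ideal.Quotient.mk _ (X F)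

/-- **IND** `p_ind : P_FUN → P_DEG → P_DIA → P_TRI → P_MAP → P_IND`. For `FY r m'`, by `P_DEG`
`du m' = u + single univ (n - r)` with `u.degree + k + 1 = r`; the functional
`φ`-pullback of `p ↦ lam (p * monomial u 1)` on the Chow ring takes the value `Df (m + du m')` on
`mon m`. Linear relation: take `m'` with nonzero coefficient and `lv m'` lexicographically maximal;
by `P_TRI` only the term `m = m'` survives, `P_DIA`. -/
def P_IND : Prop := ∀ (n r : ℕ) (i₀ : Fin n) (k : ℕ), 1 ≤ r → r ≤ n →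
  LinearIndependent ℚ (fun m : {m : Ex n // FY r m ∧ m.degree = k} => mon (xc n r i₀) m.1)

/-- **CNT** `p_cnt : P_CNT`. `chowSeries n r` is the sum over the chains `C` of nonempty flats of
`∏_{F ∈ C} ∑_{1 ≤ a < rk F - rk F⁻} X ^ a`; the `FY` exponents with support `C` are the choices of
one `a` for each `F ∈ C` (`Finset.prod_sum`, `Finset.pi`). -/
def P_CNT : Prop := ∀ n r k : ℕ, 1 ≤ r → r ≤ n → {m : Ex n | FY r m ∧ m.degree = k}.Finite ∧
  (({m : Ex n | FY r m ∧ m.degree = k}.ncard : ℕ) : ℤ) = (chowSeries n r).coeff k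

/-- **ASM** `p_asm : P_SPAN → P_MAP → P_IND → P_CNT → P_ASM`. -/
def P_ASM : Prop := ∀ n r : ℕ, 1 ≤ r → r ≤ n → hilb n r = (chowSeries n r : PowerSeries ℤ)

end Pool.Agent.W2helper45.UC
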